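import Mathlib
import Pool.Agent.Helper30.ProP.Goals
import Pool.Agent.Helper27.ProP.Top
import Pool.Agent.Helper79.ProP.T1

/-! Packet A of the nilpotent-by-abelian case of MP_ac806c_lc. -/

set_option autoImplicit false
set_option linter.unusedSectionVars false

namespace Pool.Agent.Helper17.ProP2

open Pool.Agent.Helper85.ProP Pool.Agent.Helper30.ProP Pool.Agent.Helper27.ProP

universe u

section

variable {G : Type u} [Group G] [TopologicalSpace G] [IsTopologicalGroup G] [CompactSpace G]
  [T2Space G] [TotallyDisconnectedSpace G]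

/-- closed subgroups inherit `PP` -/
theorem pp_sub {p : ℕ} [hp : Fact p.Prime] (hG : PP p G) (B : Subgroup G) : PP p B := by
  intro U _ hU
  obtain ⟨W, hW, hWU⟩ := isOpen_induced_iff.1 hU
  have h1 : (1 : G) ∈ W := by
    have h2 : (1 : B) ∈ ((↑) : B → G) ⁻¹' W := by
      rw [hWU]
      exact U.one_mem
    exact h2
  obtain ⟨O, hO⟩ := ProfiniteGrp.exist_openNormalSubgroup_sub_open_nhds_of_one hW h1
  have hOn := O.isNormal'
  obtain ⟨n, hn⟩ := hG O.toSubgroup O.isNormal' O.isOpen'
  have h3 : (O.toSubgroup.subgroupOf B) ≤ U := by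
    intro b hb
    have h4 : b ∈ ((↑) : B → G) ⁻¹' W := hO hb
    rw [hWU] at h4
    exact h4
  have h5 : U.index ∣ (O.toSubgroup.subgroupOf B).index := Subgroup.index_dvd_of_le h3
  have h6 : (O.toSubgroup.subgroupOf B).index ∣ O.toSubgroup.index :=
    Subgroup.relIndex_dvd_index_of_normal O.toSubgroup B
  rw [hn] at h6
  obtain ⟨k, -, hk⟩ := (Nat.dvd_prime_pow hp.out).1 (h5.trans h6)
  exact ⟨k, hk⟩

theorem closed_sup {B K : Subgroup G} (hB : IsClosed (B : Set G)) (hKn : K.Normal)
    (hK : IsClosed (K : Set G)) : IsClosed ((B ⊔ K : Subgroup G) : Set G) := by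
  rw [Subgroup.mul_normal]
  exact (hB.isCompact.mul hK.isCompact).isClosed

theorem mem_sup_dec {B K : Subgroup G} (hKn : K.Normal) {g : G} (hg : g ∈ B ⊔ K) :
    ∃ b ∈ B, ∃ k ∈ K, b * k = g := by
  have h1 : g ∈ ((B ⊔ K : Subgroup G) : Set G) := hg
  rw [Subgroup.mul_normal] at h1
  obtain ⟨b, hb, k, hk, h⟩ := Set.mem_mul.1 h1
  exact ⟨b, hb, k, hk, h⟩

/-- a closed subgroup normalised by topological generators is normal -/
theorem normal_of_gen {S : Set G} (hS : (Subgroup.closure S).topologicalClosure = ⊤)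
    (M : Subgroup G) (hM : IsClosed (M : Set G))
    (h : ∀ x ∈ S, ∀ m ∈ M, x * m * x⁻¹ ∈ M ∧ x⁻¹ * m * x ∈ M) : M.Normal := by
  let N : Subgroup G :=
    { carrier := {g | ∀ m ∈ M, g * m * g⁻¹ ∈ M ∧ g⁻¹ * m * g ∈ M}
      one_mem' := by
        intro m hm
        simpa using hm
      mul_mem' := by
        intro a b ha hb m hm
        constructor
        · have h1 := (ha _ (hb m hm).1).1
          have h2 : a * (b * m * b⁻¹) * a⁻¹ = a * b * m * (a * b)⁻¹ := by group
          rwa [h2] at h1
        · have h1 := (hb _ (ha m hm).2).2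
          have h2 : b⁻¹ * (a⁻¹ * m * a) * b = (a * b)⁻¹ * m * (a * b) := by group
          rwa [h2] at h1
      inv_mem' := by
        intro a ha m hm
        have h1 := ha m hm
        rw [inv_inv]
        exact ⟨h1.2, h1.1⟩ }
  have hN : IsClosed (N : Set G) := by
    have h1 : (N : Set G) = ⋂ m : M, ((fun g : G => g * (m : G) * g⁻¹) ⁻¹' (M : Set G)) ∩
        ((fun g : G => g⁻¹ * (m : G) * g) ⁻¹' (M : Set G)) := by
      ext g
      simp only [Set.mem_iInter, Set.mem_inter_iff, Set.mem_preimage, SetLike.mem_coe,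
        Subtype.forall]
      rfl
    rw [h1]
    refine isClosed_iInter fun m => ?_
    refine IsClosed.inter (hM.preimage ?_) (hM.preimage ?_)
    · fun_prop
    · fun_prop
  have hle : (⊤ : Subgroup G) ≤ N := by
    rw [← hS]
    refine Subgroup.topologicalClosure_minimal _ ?_ hN
    rw [Subgroup.closure_le]
    intro x hx
    exact h x hx
  constructor
  intro m hm g
  exact ((hle (Subgroup.mem_top g)) m hm).1

/-- finitely many elements of `B ∩ K` generating it modulo commutators -/
theorem exists_gens {p : ℕ} [Fact p.Prime] (hG : PP p G) (F : Finset G) (B K : Subgroup G)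
    (hB : B = (Subgroup.closure (F : Set G)).topologicalClosure) (hK : IsClosed (K : Set G)) :
    ∃ T : Finset G, (T : Set G) ⊆ ((B ⊓ K : Subgroup G) : Set G) ∧
      ∀ C : Subgroup G, IsClosed (C : Set G) → (T : Set G) ⊆ (C : Set G) →
        (∀ a ∈ B, ∀ b ∈ B, cm a b ∈ C) → B ⊓ K ≤ C := by
  classical
  have hBc : IsClosed (B : Set G) := by
    rw [hB]
    exact Subgroup.isClosed_topologicalClosure _
  have hFB : ∀ f ∈ F, f ∈ B := by
    intro f hf
    rw [hB]
    exact Subgroup.le_topologicalClosure _ (Subgroup.subset_closure hf)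
  have : CompactSpace B := isCompact_iff_compactSpace.1 hBc.isCompact
  let x : Fin F.card → B := fun i => ⟨(F.equivFin.symm i : G), hFB _ (F.equivFin.symm i).2⟩
  have hx : (Subgroup.closure (Set.range x)).topologicalClosure = ⊤ := by
    rw [eq_top_iff]
    intro b _
    have h1 : IsClosed ((((Subgroup.closure (Set.range x)).topologicalClosure.map
        B.subtype : Subgroup G)) : Set G) := by
      have h2 : IsCompact (((Subgroup.closure (Set.range x)).topologicalClosure : Set B)) :=
        (Subgroup.isClosed_topologicalClosure _).isCompact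
      exact (h2.image continuous_subtype_val).isClosed
    have h3 : B ≤ (Subgroup.closure (Set.range x)).topologicalClosure.map B.subtype := by
      conv_lhs => rw [hB]
      refine Subgroup.topologicalClosure_minimal _ ?_ h1
      rw [Subgroup.closure_le]
      intro f hf
      refine ⟨⟨f, hFB f hf⟩, ?_, rfl⟩
      apply Subgroup.le_topologicalClosure
      apply Subgroup.subset_closure
      refine ⟨F.equivFin ⟨f, hf⟩, ?_⟩
      apply Subtype.ext
      simp [x]
    obtain ⟨b', hb', h4⟩ := h3 b.2
    have h5 : b' = b := Subtype.ext h4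
    rw [← h5]
    exact hb'
  let Q : Subgroup B := (commutator B).topologicalClosure
  have hQn : Q.Normal := Subgroup.is_normal_topologicalClosure _
  have hQc : IsClosed (Q : Set B) := Subgroup.isClosed_topologicalClosure _
  have hQ : ∀ g h : B, cm g h ∈ Q := by
    intro g h
    apply Subgroup.le_topologicalClosure
    exact Subgroup.commutator_mem_commutator (Subgroup.mem_top g) (Subgroup.mem_top h)
  have hH : IsClosed ((K.subgroupOf B : Subgroup B) : Set B) :=
    hK.preimage continuous_subtype_val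
  obtain ⟨t, ht1, ht2⟩ := quo_gen Pool.Agent.Helper79.ProP.stmtT1 p (pp_sub hG B) hx Q hQn hQc hQ
    (K.subgroupOf B) hH
  refine ⟨Finset.univ.image fun i => ((t i : B) : G), ?_, ?_⟩
  · intro g hg
    simp only [Finset.coe_image, Finset.coe_univ, Set.image_univ, Set.mem_range] at hg
    obtain ⟨i, rfl⟩ := hg
    exact ⟨(t i).2, ht1 i⟩
  · intro C hC hT hcomm g hg
    have hCc : IsClosed ((C.subgroupOf B : Subgroup B) : Set B) :=
      hC.preimage continuous_subtype_val
    have hti : ∀ i, t i ∈ C.subgroupOf B := by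
      intro i
      apply hT
      simp
    obtain ⟨l, hl, hl2⟩ := ht2 (C.subgroupOf B) hCc hti ⟨g, hg.1⟩ hg.2
    have h6 : Q ≤ C.subgroupOf B := by
      refine Subgroup.topologicalClosure_minimal _ ?_ hCc
      rw [commutator, Subgroup.commutator_le]
      intro a _ b _
      exact hcomm a a.2 b b.2
    have h7 : (⟨g, hg.1⟩ : B) ∈ C.subgroupOf B := by
      have h8 := mul_mem hl (h6 hl2)
      rwa [mul_inv_cancel_left] at h8
    exact h7

end

theorem stmtF1 : StmtF1.{u} := by
  classical
  intro p _ G _ _ _ _ _ _ hG hfg K L hKn hK hLn hL hKL hcm hmod hL2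
  obtain ⟨S, hS⟩ := hfg
  obtain ⟨F, hFL, hF⟩ := hmod
  obtain ⟨Y, hYL, hY⟩ := hL2
  set B : Subgroup G := (Subgroup.closure (F : Set G)).topologicalClosure with hB
  have hBc : IsClosed (B : Set G) := Subgroup.isClosed_topologicalClosure _
  have hFB : ∀ f ∈ F, f ∈ B := fun f hf =>
    Subgroup.le_topologicalClosure _ (Subgroup.subset_closure hf)
  have hBmin : ∀ C : Subgroup G, IsClosed (C : Set G) → (∀ f ∈ F, f ∈ C) → B ≤ C := by
    intro C hC hFC
    refine Subgroup.topologicalClosure_minimal _ ?_ hC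
    rw [Subgroup.closure_le]
    exact hFC
  have hBL : B ≤ L := hBmin L hL hFL
  have hLBK : L ≤ B ⊔ K := hF _ (closed_sup hBc hKn hK) le_sup_right
    (fun f hf => (le_sup_left : B ≤ B ⊔ K) (hFB f hf))
  have hdec : ∀ l : G, ∃ k ∈ K, l ∈ L → l * k⁻¹ ∈ B := by
    intro l
    by_cases hl : l ∈ L
    · obtain ⟨b, hb, k, hk, h⟩ := mem_sup_dec hKn (hLBK hl)
      refine ⟨k, hk, fun _ => ?_⟩
      rw [← h, mul_inv_cancel_right]
      exact hb
    · exact ⟨1, K.one_mem, fun h => absurd h hl⟩
  choose κ hκ1 hκ2 using hdec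
  obtain ⟨T, hT1, hT2⟩ := exists_gens hG F B K hB hK
  let F1 : Finset G := (F ×ˢ F).image fun q => cm q.1 q.2
  let F2 : Finset G := (S ×ˢ F).image fun q => κ (q.1 * q.2 * q.1⁻¹)
  let F3 : Finset G := (S ×ˢ F).image fun q => κ (q.1⁻¹ * q.2 * q.1)
  let F4 : Finset G := Y.image κ
  refine ⟨F1 ∪ F2 ∪ F3 ∪ F4 ∪ T, ?_, ?_⟩
  · intro g hg
    simp only [Finset.coe_union, Set.mem_union, Finset.mem_coe] at hg
    rcases hg with (((h | h) | h) | h) | h
    · obtain ⟨q, hq, rfl⟩ := Finset.mem_image.1 h
      rw [Finset.mem_product] at hq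
      exact hcm _ (hFL hq.1) _ (hFL hq.2)
    · obtain ⟨q, -, rfl⟩ := Finset.mem_image.1 h
      exact hκ1 _
    · obtain ⟨q, -, rfl⟩ := Finset.mem_image.1 h
      exact hκ1 _
    · obtain ⟨q, -, rfl⟩ := Finset.mem_image.1 h
      exact hκ1 _
    · exact (hT1 h).2
  · intro H hHn hH hFH
    have hsub : ∀ g, g ∈ F1 ∨ g ∈ F2 ∨ g ∈ F3 ∨ g ∈ F4 ∨ g ∈ T → g ∈ H := by
      intro g hg
      apply hFH
      simp only [Finset.coe_union, Set.mem_union, Finset.mem_coe]
      tauto
    set K0 : Subgroup G := H ⊓ K with hK0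
    have hK0n : K0.Normal := by
      constructor
      intro n hn g
      exact ⟨hHn.conj_mem _ hn.1 g, hKn.conj_mem _ hn.2 g⟩
    have hK0c : IsClosed (K0 : Set G) := hH.inter hK
    have hM : IsClosed ((B ⊔ K0 : Subgroup G) : Set G) := closed_sup hBc hK0n hK0c
    have hdec2 : ∀ l ∈ L, κ l ∈ H → l ∈ B ⊔ K0 := by
      intro l hl hκ
      have h1 : l = (l * (κ l)⁻¹) * κ l := by group
      rw [h1]
      exact mul_mem ((le_sup_left : B ≤ B ⊔ K0) (hκ2 l hl))
        ((le_sup_right : K0 ≤ B ⊔ K0) ⟨hκ, hκ1 l⟩)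
    have hconj : ∀ x : G, (∀ f ∈ F, x * f * x⁻¹ ∈ B ⊔ K0) →
        ∀ m ∈ B ⊔ K0, x * m * x⁻¹ ∈ B ⊔ K0 := by
      intro x hx
      have h1 : B ⊔ K0 ≤ (B ⊔ K0).comap (MulAut.conj x).toMonoidHom := by
        refine sup_le ?_ ?_
        · apply hBmin
          · refine hM.preimage (f := fun g => x * g * x⁻¹) ?_
            fun_prop
          · exact hx
        · intro k hk
          exact (le_sup_right : K0 ≤ B ⊔ K0) (hK0n.conj_mem _ hk x)
      exact fun m hm => h1 hm
    have hMn : (B ⊔ K0).Normal := by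
      refine normal_of_gen hS _ hM ?_
      intro x hx m hm
      constructor
      · refine hconj x ?_ m hm
        intro f hf
        refine hdec2 _ (hLn.conj_mem _ (hFL hf) x) ?_
        apply hsub
        right; left
        exact Finset.mem_image.2 ⟨(x, f), Finset.mem_product.2 ⟨hx, hf⟩, rfl⟩
      · have h2 := hconj x⁻¹ (by
          intro f hf
          rw [inv_inv]
          refine hdec2 _ ?_ ?_
          · have h3 := hLn.conj_mem _ (hFL hf) x⁻¹
            rwa [inv_inv] at h3
          · apply hsub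
            right; right; left
            exact Finset.mem_image.2 ⟨(x, f), Finset.mem_product.2 ⟨hx, hf⟩, rfl⟩) m hm
        rwa [inv_inv] at h2
    have hLM : L ≤ B ⊔ K0 := by
      refine hY _ hMn hM ?_
      intro y hy
      refine hdec2 y (hYL hy) ?_
      apply hsub
      right; right; right; left
      exact Finset.mem_image.2 ⟨y, hy, rfl⟩
    -- commutators
    have hcomm : ∀ a ∈ B, ∀ b ∈ B, cm a b ∈ K0 := by
      have h1 : ∀ b ∈ F, ∀ a ∈ B, cm a b ∈ K0 := by
        intro b hb
        let C : Subgroup G :=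
          { carrier := {g | cm g b ∈ K0}
            one_mem' := by
              show cm 1 b ∈ K0
              have : cm 1 b = 1 := by unfold cm; group
              rw [this]; exact K0.one_mem
            mul_mem' := by
              intro a c ha hc
              show cm (a * c) b ∈ K0
              rw [cm_mul_left]
              exact K0.mul_mem (hK0n.conj_mem _ hc a) ha
            inv_mem' := by
              intro a ha
              show cm a⁻¹ b ∈ K0
              rw [cm_inv_left]
              have := hK0n.conj_mem _ (K0.inv_mem ha) a⁻¹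
              rwa [inv_inv] at this }
        have hC : IsClosed (C : Set G) := by
          refine hK0c.preimage (f := fun g => cm g b) ?_
          unfold cm
          fun_prop
        have h2 : B ≤ C := by
          refine hBmin C hC ?_
          intro f hf
          refine ⟨hsub _ (Or.inl ?_), hcm _ (hFL hf) _ (hFL hb)⟩
          exact Finset.mem_image.2 ⟨(f, b), Finset.mem_product.2 ⟨hf, hb⟩, rfl⟩
        exact fun a ha => h2 ha
      intro a ha
      let C : Subgroup G :=
        { carrier := {k | cm a k ∈ K0}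
          one_mem' := by
            show cm a 1 ∈ K0
            have : cm a 1 = 1 := by unfold cm; group
            rw [this]; exact K0.one_mem
          mul_mem' := by
            intro c d hc hd
            show cm a (c * d) ∈ K0
            rw [cm_mul_right]
            exact K0.mul_mem hc (hK0n.conj_mem _ hd c)
          inv_mem' := by
            intro c hc
            show cm a c⁻¹ ∈ K0
            rw [cm_inv_right]
            have := hK0n.conj_mem _ (K0.inv_mem hc) c⁻¹
            rwa [inv_inv] at this }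
      have hC : IsClosed (C : Set G) := by
        refine hK0c.preimage (f := fun k => cm a k) ?_
        unfold cm
        fun_prop
      have h2 : B ≤ C := hBmin C hC (fun f hf => h1 f hf a ha)
      exact fun b hb => h2 hb
    have hBK : B ⊓ K ≤ K0 := by
      refine hT2 K0 hK0c ?_ hcomm
      intro t ht
      exact ⟨hsub _ (Or.inr (Or.inr (Or.inr (Or.inr ht)))), (hT1 ht).2⟩
    intro k hk
    obtain ⟨b, hb, k0, hk0, h⟩ := mem_sup_dec hK0n (hLM (hKL hk))
    have h1 : b ∈ B ⊓ K := by
      refine ⟨hb, ?_⟩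
      have h2 : b = k * k0⁻¹ := by rw [← h]; group
      rw [h2]
      exact K.mul_mem hk (K.inv_mem hk0.2)
    rw [← h]
    exact mul_mem (hBK h1).1 hk0.1

theorem stmtMax : StmtMax.{u} := by
  intro p _ G _ _ _ _ _ _ hG hfg K L hKn hK hLn hL hKL hcm hmod hmax K' hK'n hK' hKK'
  have hL'n : (L ⊔ K').Normal := Subgroup.sup_normal L K'
  have hL' : IsClosed ((L ⊔ K' : Subgroup G) : Set G) := closed_sup hL hK'n hK'
  refine stmtF1 p G hG hfg K' (L ⊔ K') hK'n hK' hL'n hL' le_sup_right ?_ ?_
    (hmax _ hL'n hL' le_sup_left)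
  · intro a ha b hb
    obtain ⟨l, hl, k, hk, rfl⟩ := mem_sup_dec hK'n ha
    obtain ⟨l', hl', k', hk', rfl⟩ := mem_sup_dec hK'n hb
    rw [← QuotientGroup.eq_one_iff]
    have h1 : ((k : G) : G ⧸ K') = 1 := (QuotientGroup.eq_one_iff _).2 hk
    have h2 : ((k' : G) : G ⧸ K') = 1 := (QuotientGroup.eq_one_iff _).2 hk'
    have h3 : ((cm l l' : G) : G ⧸ K') = 1 :=
      (QuotientGroup.eq_one_iff _).2 (hKK' (hcm l hl l' hl'))
    unfold cm at h3 ⊢
    simp only [QuotientGroup.mk_mul, QuotientGroup.mk_inv, h1, h2, mul_one] at h3 ⊢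
    exact h3
  · obtain ⟨F, hFL, hF⟩ := hmod
    refine ⟨F, fun f hf => (le_sup_left : L ≤ L ⊔ K') (hFL hf), ?_⟩
    intro H hH hKH hFH
    exact sup_le (hF H hH (hKK'.trans hKH) hFH) hKH

end Pool.Agent.Helper17.ProP2
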